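import Pool.Agent.TH639.SC.Bnd

/-!
Coverings of degree `ℓ ^ a` of the plane, and the zeta function of the branch curve modulo `ℓ`.
-/

set_option autoImplicit false
set_option maxHeartbeats 1000000

open PowerSeries

namespace Pool.Agent.TH639.SG

open Pool.Agent.W313.Hyp Pool.Agent.W343.BSD
open Pool.Agent.TH943.HJ (RF finRF fd1 fd2)
open Pool.Agent.TH639.SC

section loc

variable {k : Type} [Field k] {A : Type} [CommRing A] {R : Type} [Field R]

/-- an element of `ℓ`-power order is one in characteristic `ℓ` -/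
theorem eq_one_of_pow {ℓ : ℕ} [hp : Fact ℓ.Prime] [CharP R ℓ] {x : R} {m : ℕ}
    (h : x ^ (ℓ ^ m) = 1) : x = 1 := by
  have h2 : (x - 1) ^ (ℓ ^ m) = 0 := by
    rw [sub_pow_char_pow, h, one_pow, sub_self]
  exact sub_eq_zero.1 (eq_zero_of_pow_eq_zero h2)

/-- the values of a character of `ℓ`-power order are one modulo a prime over `ℓ` -/
theorem red_char' {ℓ : ℕ} [hp : Fact ℓ.Prime] [CharP R ℓ] (ρ : A →+* R) {χ : MulChar k A} {a : ℕ}
    (hχ : χ ^ (ℓ ^ a) = 1) {u : k} (hu : u ≠ 0) : ρ (χ u) = 1 := by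
  apply eq_one_of_pow (ℓ := ℓ) (m := a)
  rw [← map_pow, ← MulChar.pow_apply' χ (pow_ne_zero a hp.out.ne_zero), hχ,
    MulChar.one_apply (isUnit_iff_ne_zero.2 hu), map_one]

variable {F : Type} [Field F] [Algebra k F]

theorem red_lf' (ρ : A →+* R) {χ : MulChar k A} (hρ : ∀ u : k, u ≠ 0 → ρ (χ u) = 1)
    [Module.Finite k F] {g : Polynomial F} {Q : MI F} {n : ℕ} (h : ¬ Q.1 ∣ g) :
    PowerSeries.map ρ (lf χ g Q.1 n) = 1 - X ^ n := by
  unfold lf
  rw [map_sub, map_one, map_mul, PowerSeries.map_C, map_pow, PowerSeries.map_X,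
    hρ _ (fun h0 => h ((norm_eq_zero_iff (k := k) Q g).1 h0)), PowerSeries.C.map_one,
    one_mul]

/-- the local identity -/
theorem locL_red' (ρ : A →+* R) {χ : MulChar k A} (hρ : ∀ u : k, u ≠ 0 → ρ (χ u) = 1)
    [Module.Finite k F] [Finite F] (hF : ((Nat.card F : ℕ) : R) = 1)
    {g : Polynomial F} (h0 : g ≠ 0) {d : ℕ} (hd : 0 < d) :
    PowerSeries.map ρ (locL χ g d) * ∏ P ∈ facs g, (1 - X ^ (d * P.1.natDegree)) = 1 - X ^ d := by
  have h1 : ∀ P : MI F, (X : PowerSeries R) ^ (d * P.1.natDegree) ∣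
      (1 - X ^ (d * P.1.natDegree)) - 1 := fun P => one_sub_mod le_rfl
  have h2 : ∀ P : MI F, (X : PowerSeries R) ^ (d * P.1.natDegree) ∣
      PowerSeries.map ρ (lf χ g P.1 (d * P.1.natDegree)) - 1 := fun P => by
    have h3 := map_dvd (PowerSeries.map ρ) (lf_mod χ g P.1 (d * P.1.natDegree))
    rwa [map_sub, map_one, map_pow, PowerSeries.map_X] at h3
  have key := fin_factor' (finite_d hd)
    (F := fun P : MI F => (1 - X ^ (d * P.1.natDegree) : PowerSeries R))
    h1 h2 (facs g) (fun P hP => by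
      rw [red_lf' ρ hρ (fun hPh => hP ((mem_facs h0 P).2 hPh))])
  have h4 : ∏ P ∈ facs g, PowerSeries.map ρ (lf χ g P.1 (d * P.1.natDegree)) = 1 :=
    Finset.prod_eq_one fun P hP => by
      rw [lf_of_dvd χ ((mem_facs h0 P).1 hP), map_one]
  rw [h4, mul_one, zeta_line hF hd] at key
  have h5 : PowerSeries.map ρ (locL χ g d) = eulerProd (fun P : MI F => d * P.1.natDegree)
      (fun P => PowerSeries.map ρ (lf χ g P.1 (d * P.1.natDegree))) := by
    unfold locL
    exact map_eulerProd (finite_d hd) _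
  rw [h5, ← key]

end loc

section glob

variable {k : Type} [Field k] {A : Type} [CommRing A]

/-- the polynomial over the residue field -/
noncomputable def twG (G : ∀ P : MI k, Polynomial (RF P)) (D : Polynomial k) (P : MI k) :
    Polynomial (RF P) := Polynomial.C (AdjoinRoot.mk P.1 D) * G P

/-- The product over the closed points of the affine plane with `D(t) ≠ 0`. -/
noncomputable def LFG (χ : MulChar k A) (G : ∀ P : MI k, Polynomial (RF P)) (D : Polynomial k) :
    PowerSeries A :=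
  eulerProd (fun z : (Σ P : {P : MI k // ¬ P.1 ∣ D}, MI (RF P.1)) =>
      z.1.1.1.natDegree * z.2.1.natDegree)
    (fun z => lf χ (twG G D z.1.1) z.2.1 (z.1.1.1.natDegree * z.2.1.natDegree))

/-- The inverse of the zeta function of the branch curve. -/
noncomputable def zinv (G : ∀ P : MI k, Polynomial (RF P)) : PowerSeries ℤ :=
  eulerProd (fun z : (Σ P : MI k, {Q : MI (RF P) // Q.1 ∣ G P}) =>
      z.1.1.natDegree * z.2.1.1.natDegree)
    (fun z => 1 - X ^ (z.1.1.natDegree * z.2.1.1.natDegree))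

/-- the product over the points of the branch curve over `P` -/
noncomputable def PhiG (R : Type) [CommRing R] (G : ∀ P : MI k, Polynomial (RF P)) (P : MI k) :
    PowerSeries R :=
  ∏ Q ∈ facs (G P), (1 - X ^ (P.1.natDegree * Q.1.natDegree))

theorem twG_ne {G : ∀ P : MI k, Polynomial (RF P)} (hG : ∀ P, G P ≠ 0) {D : Polynomial k}
    {P : MI k} (hP : ¬ P.1 ∣ D) : twG G D P ≠ 0 := by
  refine mul_ne_zero ?_ (hG P)
  rw [Ne, Polynomial.C_eq_zero, AdjoinRoot.mk_eq_zero]
  exact hP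

theorem dvd_twG {G : ∀ P : MI k, Polynomial (RF P)} {D : Polynomial k} {P : MI k}
    (hP : ¬ P.1 ∣ D) (Q : MI (RF P)) : Q.1 ∣ twG G D P ↔ Q.1 ∣ G P := by
  unfold twG
  have h0 : AdjoinRoot.mk P.1 D ≠ 0 := by
    rw [Ne, AdjoinRoot.mk_eq_zero]
    exact hP
  have hu : IsUnit (Polynomial.C (AdjoinRoot.mk P.1 D)) :=
    Polynomial.isUnit_C.2 (isUnit_iff_ne_zero.2 h0)
  rw [hu.dvd_mul_left]

variable [Finite k]

theorem facs_twG {G : ∀ P : MI k, Polynomial (RF P)} (hG : ∀ P, G P ≠ 0) {D : Polynomial k}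
    {P : MI k} (hP : ¬ P.1 ∣ D) : facs (twG G D P) = facs (G P) := by
  have := finRF P
  ext Q
  rw [mem_facs (twG_ne hG hP), dvd_twG hP, mem_facs (hG P)]

theorem LFG_eq (χ : MulChar k A) (G : ∀ P : MI k, Polynomial (RF P)) (D : Polynomial k)
    [DecidablePred fun P : MI k => ¬ P.1 ∣ D] :
    LFG χ G D = eulerProd (fun P : MI k => P.1.natDegree)
      (fun P => if ¬ P.1 ∣ D then locL χ (twG G D P) P.1.natDegree else 1) := by
  have hfin : ∀ P : MI k, Finite (RF P) := finRF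
  unfold LFG
  rw [eulerProd_sigma (ι := {P : MI k // ¬ P.1 ∣ D}) (κ := fun P => MI (RF P.1))
    (d := fun P => P.1.1.natDegree) (e := fun P Q => Q.1.natDegree)
    (fun n => Set.Finite.of_finite_image (f := fun i : {P : MI k // ¬ P.1 ∣ D} => i.1)
      ((finite_deg_le (F := k) n).subset (by rintro _ ⟨i, hi, rfl⟩; exact hi))
      (Set.injOn_of_injective Subtype.val_injective))
    (fun P => MI.deg_pos P.1) (fun P n => finite_deg_le n) (fun P Q => MI.deg_pos Q) _
    (fun p => lf_mod _ _ _ _)]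
  exact eulerProd_subtype (fun P : MI k => ¬ P.1 ∣ D) (d := fun P => P.1.natDegree)
    (fun n => finite_deg_le (F := k) n) (f := fun P => locL χ (twG G D P) P.1.natDegree)
    (fun P _ => locL_mod_one χ (twG G D P) (MI.deg_pos P))

theorem zinv_eq {G : ∀ P : MI k, Polynomial (RF P)} (hG : ∀ P, G P ≠ 0) :
    zinv G = eulerProd (fun P : MI k => P.1.natDegree) (PhiG ℤ G) := by
  classical
  have hfin : ∀ P : MI k, Finite (RF P) := finRF
  have hF : ∀ P : MI k, Finite {Q : MI (RF P) // Q.1 ∣ G P} := fun P =>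
    Finite.of_injective (fun Q => (⟨Q.1, (mem_facs (hG P) Q.1).2 Q.2⟩ : facs (G P))) (by
      intro Q Q' h
      exact Subtype.ext (congrArg (fun z => z.1) h))
  unfold zinv
  rw [eulerProd_sigma (ι := MI k) (κ := fun P => {Q : MI (RF P) // Q.1 ∣ G P})
    (d := fun P => P.1.natDegree) (e := fun P Q => Q.1.1.natDegree)
    (fun n => finite_deg_le (F := k) n) (fun P => MI.deg_pos P)
    (fun P n => Set.toFinite _) (fun P Q => MI.deg_pos Q.1) _
    (fun p => one_sub_mod le_rfl)]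
  congr 1
  funext P
  have := Fintype.ofFinite {Q : MI (RF P) // Q.1 ∣ G P}
  rw [eulerProd_of_finset (fun n => Set.toFinite _) (fun Q => one_sub_mod le_rfl) Finset.univ
    (fun Q hQ => absurd (Finset.mem_univ Q) hQ)]
  unfold PhiG
  refine Finset.prod_bij (fun Q _ => Q.1) ?_ ?_ ?_ ?_
  · intro Q _
    exact (mem_facs (hG P) Q.1).2 Q.2
  · intro Q _ Q' _ h
    exact Subtype.ext h
  · intro Q hQ
    exact ⟨⟨Q, (mem_facs (hG P) Q).1 hQ⟩, Finset.mem_univ _, rfl⟩
  · intro Q _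
    rfl

variable {R : Type} [Field R]

omit [Finite k] in
theorem PhiG_mod (R : Type) [CommRing R] (G : ∀ P : MI k, Polynomial (RF P)) (P : MI k) :
    (X : PowerSeries R) ^ P.1.natDegree ∣ PhiG R G P - 1 := by
  have h := prod_congr_mod (facs (G P))
    (fun Q => (1 - X ^ (P.1.natDegree * Q.1.natDegree) : PowerSeries R)) (fun _ => 1)
    P.1.natDegree (fun Q _ => one_sub_mod (Nat.le_mul_of_pos_right _ (MI.deg_pos Q)))
  rwa [Finset.prod_const_one] at h

omit [Finite k] in
theorem map_PhiG (φ : ℤ →+* R) (G : ∀ P : MI k, Polynomial (RF P)) (P : MI k) :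
    PowerSeries.map φ (PhiG ℤ G P) = PhiG R G P := by
  unfold PhiG
  rw [map_prod]
  refine Finset.prod_congr rfl fun Q _ => ?_
  rw [map_sub, map_one, map_pow, PowerSeries.map_X]

open Classical in
/-- **the identity modulo a prime over `ℓ`** -/
theorem identityG (ρ : A →+* R) {χ : MulChar k A} (hρ : ∀ u : k, u ≠ 0 → ρ (χ u) = 1)
    (hq : ((Nat.card k : ℕ) : R) = 1) {G : ∀ P : MI k, Polynomial (RF P)} (hG : ∀ P, G P ≠ 0)
    {D : Polynomial k} (hD : D ≠ 0) :
    PowerSeries.map ρ (LFG χ G D) * PowerSeries.map (Int.castRingHom R) (zinv G) *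
        ∏ P ∈ facs D, (1 - X ^ P.1.natDegree) =
      (1 - X) * ∏ P ∈ facs D, PhiG R G P := by
  have hfin : ∀ P : MI k, Finite (RF P) := finRF
  have hfd := fun n => finite_deg_le (F := k) n
  set W : MI k → PowerSeries R :=
    fun P => PowerSeries.map ρ (if ¬ P.1 ∣ D then locL χ (twG G D P) P.1.natDegree else 1) with hW
  have hloc : ∀ P : MI k, (X : PowerSeries A) ^ P.1.natDegree ∣
      (if ¬ P.1 ∣ D then locL χ (twG G D P) P.1.natDegree else 1) - 1 := by
    intro P
    split_ifs with hv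
    · rw [sub_self]; exact dvd_zero _
    · exact locL_mod_one χ (twG G D P) (MI.deg_pos P)
  have hW1 : ∀ P : MI k, (X : PowerSeries R) ^ P.1.natDegree ∣ W P - 1 := by
    intro P
    have h3 := map_dvd (PowerSeries.map ρ) (hloc P)
    rwa [map_sub, map_one, map_pow, PowerSeries.map_X] at h3
  have hWS : ∀ P ∈ facs D, W P = 1 := by
    intro P hP
    rw [mem_facs hD] at hP
    show PowerSeries.map ρ (if ¬ P.1 ∣ D then locL χ (twG G D P) P.1.natDegree else 1) = 1
    rw [if_neg (not_not.2 hP), map_one]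
  have hgood : ∀ P, P ∉ facs D → PhiG R G P * W P = 1 - X ^ P.1.natDegree := by
    intro P hP
    rw [mem_facs hD] at hP
    have := fd1 P
    have h1 := locL_red' ρ hρ (card_RFR hq P) (twG_ne hG hP) (MI.deg_pos P)
    have h2 : W P = PowerSeries.map ρ (locL χ (twG G D P) P.1.natDegree) := by
      show PowerSeries.map ρ
        (if ¬ P.1 ∣ D then locL χ (twG G D P) P.1.natDegree else 1) = _
      rw [if_pos hP]
    rw [← h2, facs_twG hG hP] at h1
    rw [mul_comm]
    exact h1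
  have hLS : PowerSeries.map ρ (LFG χ G D) = eulerProd (fun P : MI k => P.1.natDegree) W := by
    rw [LFG_eq χ G D, map_eulerProd hfd]
  have hzi : PowerSeries.map (Int.castRingHom R) (zinv G) =
      eulerProd (fun P : MI k => P.1.natDegree) (PhiG R G) := by
    rw [zinv_eq hG, map_eulerProd hfd]
    congr 1
    funext P
    exact map_PhiG _ G P
  have key := fin_factor' (F := fun P => PhiG R G P * W P)
    (W := fun P => (1 - X ^ P.1.natDegree : PowerSeries R)) hfd
    (fun P => one_mod_mul (PhiG_mod R G P) (hW1 P)) (fun P => one_sub_mod le_rfl) (facs D) hgood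
  rw [eulerProd_mul hfd (PhiG_mod R G) hW1, zeta_one hq, ← hLS, ← hzi] at key
  have hTW : ∏ P ∈ facs D, (PhiG R G P * W P) = ∏ P ∈ facs D, PhiG R G P :=
    Finset.prod_congr rfl fun P hP => by rw [hWS P hP, mul_one]
  rw [hTW] at key
  rw [← key]
  ring

end glob

section final

variable {k : Type} [Field k] [Finite k] {A : Type} [CommRing A] [CharZero A]
  [Algebra.IsIntegral ℤ A] {ℓ : ℕ}

/-- the multiplicity of the root one modulo `ℓ` -/
noncomputable def muL (ℓ : ℕ) (L : Polynomial ℤ) : ℕ :=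
  (L.map (Int.castRingHom (ZMod ℓ))).rootMultiplicity 1

theorem muL_eq {R : Type} [Field R] [hp : Fact ℓ.Prime] [CharP R ℓ] (L : Polynomial ℤ) :
    (L.map (Int.castRingHom R)).rootMultiplicity 1 = muL ℓ L := by
  let φ : ZMod ℓ →+* R := ZMod.castHom dvd_rfl R
  have hφ : Function.Injective φ := φ.injective
  have h4 := Polynomial.eq_rootMultiplicity_map (p := L.map (Int.castRingHom (ZMod ℓ))) hφ 1
  rw [Polynomial.map_map, map_one] at h4
  have h5 : φ.comp (Int.castRingHom (ZMod ℓ)) = Int.castRingHom R := RingHom.ext_int _ _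
  rw [h5] at h4
  exact h4.symm

theorem muL_eq_zero [hp : Fact ℓ.Prime] {L : Polynomial ℤ} (h : ¬ (ℓ : ℤ) ∣ L.eval 1) :
    muL ℓ L = 0 := by
  unfold muL
  apply Polynomial.rootMultiplicity_eq_zero
  rw [Polynomial.IsRoot.def]
  have h2 := Polynomial.eval_map_apply (Int.castRingHom (ZMod ℓ)) (1 : ℤ) (p := L)
  rw [map_one] at h2
  rw [h2]
  intro h0
  apply h
  rw [eq_intCast] at h0
  exact (ZMod.intCast_zmod_eq_zero_iff_dvd _ _).1 h0

/-- **the bound for the multiplicities of the eigenvalues** -/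
theorem order_bound (hℓ : ℓ.Prime) (hd : ℓ ∣ Nat.card k - 1) {χ : MulChar k A} {a : ℕ}
    (hχ : χ ^ (ℓ ^ a) = 1) {G : ∀ P : MI k, Polynomial (RF P)} (hG : ∀ P, G P ≠ 0)
    {D : Polynomial k} (hD : D ≠ 0) {L : Polynomial ℤ}
    (hL : zinv G * (L : PowerSeries ℤ) =
      ((1 - Polynomial.C (Nat.card k : ℤ) * Polynomial.X : Polynomial ℤ) : PowerSeries ℤ))
    (Z : Finset A) (hZ : ∀ ζ ∈ Z, ∃ m : ℕ, ζ ^ (ℓ ^ m) = 1) (r : A → ℕ) (H : Polynomial A)
    (hH : LFG χ G D = (((∏ ζ ∈ Z, (1 - Polynomial.C ((Nat.card k : A) * ζ) * Polynomial.X) ^ r ζ) *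
      H : Polynomial A) : PowerSeries A)) :
    ∑ ζ ∈ Z, r ζ + ∑ P ∈ facs D, ℓ ^ padicValNat ℓ P.1.natDegree ≤
      muL ℓ L + ∑ P ∈ facs D, ∑ Q ∈ facs (G P), ℓ ^ padicValNat ℓ (P.1.natDegree * Q.1.natDegree) := by
  classical
  have hF : Fact ℓ.Prime := ⟨hℓ⟩
  obtain ⟨R, _, _, ρ, hq⟩ := exists_hom (A := A) hℓ hd
  have h1 := identityG ρ (fun u hu => red_char' ρ hχ hu) hq hG hD
  have h2 : PowerSeries.map (Int.castRingHom R) (zinv G) *
      ((L.map (Int.castRingHom R) : Polynomial R) : PowerSeries R) = 1 - X := by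
    have h3 := congrArg (PowerSeries.map (Int.castRingHom R)) hL
    rw [map_mul, ← Polynomial.polynomial_map_coe, ← Polynomial.polynomial_map_coe] at h3
    rw [h3, Polynomial.map_sub, Polynomial.map_one, Polynomial.map_mul, Polynomial.map_C,
      Polynomial.map_X]
    have h4 : (Int.castRingHom R) (Nat.card k : ℤ) = 1 := by
      rw [eq_intCast, Int.cast_natCast, hq]
    rw [h4, Polynomial.C_1, one_mul, Polynomial.coe_sub, Polynomial.coe_one, Polynomial.coe_X]
  have hone : (1 - X : PowerSeries R) ≠ 0 := by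
    have := one_sub_ne (R := R) one_pos
    rwa [pow_one] at this
  have h5 : PowerSeries.map ρ (LFG χ G D) * ∏ P ∈ facs D, (1 - X ^ P.1.natDegree) =
      ((L.map (Int.castRingHom R) : Polynomial R) : PowerSeries R) *
        ∏ P ∈ facs D, PhiG R G P := by
    apply mul_left_cancel₀ hone
    linear_combination ((L.map (Int.castRingHom R) : Polynomial R) : PowerSeries R) * h1 -
      (PowerSeries.map ρ (LFG χ G D) * ∏ P ∈ facs D, (1 - X ^ P.1.natDegree)) * h2
  obtain ⟨U, hU, hU0, hUm⟩ := isMu_facs (R := R) (ℓ := ℓ) (facs D)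
  obtain ⟨V, hV, hV0, hVm⟩ : IsMu (∏ P ∈ facs D, PhiG R G P)
      (∑ P ∈ facs D, ∑ Q ∈ facs (G P), ℓ ^ padicValNat ℓ (P.1.natDegree * Q.1.natDegree)) :=
    IsMu.prod _ fun P _ => IsMu.prod _ fun Q _ =>
      IsMu.zf (Nat.mul_pos (MI.deg_pos P) (MI.deg_pos Q))
  have hL0 : L.map (Int.castRingHom R) ≠ 0 := by
    intro h
    rw [h, Polynomial.coe_zero, mul_zero] at h2
    exact hone h2.symm
  rw [hH, ← hU, ← hV, ← Polynomial.polynomial_map_coe, ← Polynomial.coe_mul,
    ← Polynomial.coe_mul] at h5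
  have hpoly := Polynomial.coe_injective R h5
  rw [Polynomial.map_mul, Polynomial.map_prod] at hpoly
  have h6 : ∀ ζ ∈ Z, ((1 - Polynomial.C ((Nat.card k : A) * ζ) * Polynomial.X) ^ r ζ).map ρ =
      (1 - Polynomial.X) ^ r ζ := by
    intro ζ hζ
    obtain ⟨m, hm⟩ := hZ ζ hζ
    have h7 : ρ ζ = 1 := by
      apply eq_one_of_pow (ℓ := ℓ) (m := m)
      rw [← map_pow, hm, map_one]
    rw [Polynomial.map_pow, Polynomial.map_sub, Polynomial.map_one, Polynomial.map_mul,
      Polynomial.map_C, Polynomial.map_X, map_mul, map_natCast, hq, h7, one_mul, Polynomial.C_1,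
      one_mul]
  rw [Finset.prod_congr rfl h6, Finset.prod_pow_eq_pow_sum] at hpoly
  obtain ⟨hX, hXm⟩ := rm_zf (R := R) (ℓ := ℓ) one_pos
  rw [pow_one, padicValNat_one_right, pow_zero] at hXm
  rw [pow_one] at hX
  have hne : (1 - Polynomial.X) ^ (∑ ζ ∈ Z, r ζ) * H.map ρ ≠ 0 := by
    intro h
    rw [h, zero_mul] at hpoly
    exact mul_ne_zero hL0 hV0 hpoly.symm
  have hrm := congrArg (Polynomial.rootMultiplicity 1) hpoly
  rw [rm_mul 1 hne hU0, rm_mul 1 (left_ne_zero_of_mul hne) (right_ne_zero_of_mul hne),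
    rm_pow 1 hX, hXm, hUm, rm_mul 1 hL0 hV0, hVm, muL_eq] at hrm
  omega

end final

end Pool.Agent.TH639.SG
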