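import Pool.Agent.TH639.SG.Core

/-!
The bounds in terms of the prime factors.
-/

set_option autoImplicit false
set_option maxHeartbeats 1000000

open Polynomial

namespace Pool.Agent.TH639.SG

open Pool.Agent.W313.Hyp Pool.Agent.W343.BSD
open Pool.Agent.TH943.HJ (RF finRF)
open Pool.Agent.TH639.SC

variable {k : Type} [Field k]

/-- the contribution of the place `P` -/
noncomputable def cG (ℓ : ℕ) (G : ∀ P : MI k, (RF P)[X]) (P : MI k) : ℤ :=
  ∑ Q ∈ primes (G P), (ℓ : ℤ) ^ padicValNat ℓ (P.1.natDegree * Q.natDegree) -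
    (ℓ : ℤ) ^ padicValNat ℓ P.1.natDegree

variable [Finite k]

/-- the bound -/
theorem bnd_eqG (ℓ : ℕ) {G : ∀ P : MI k, (RF P)[X]} (hG : ∀ P, G P ≠ 0) {D : k[X]} (hD : D ≠ 0) :
    ∑ᶠ (P : MI k) (_ : P.1 ∣ D), cG ℓ G P =
      ((∑ P ∈ facs D, ∑ Q ∈ facs (G P), ℓ ^ padicValNat ℓ (P.1.natDegree * Q.1.natDegree) : ℕ) : ℤ) -
        ((∑ P ∈ facs D, ℓ ^ padicValNat ℓ P.1.natDegree : ℕ) : ℤ) := by
  have hfin : ∀ P : MI k, Finite (RF P) := finRF
  rw [finsum_cond_eq_sum_of_cond_iff (t := facs D) _ (fun {P} _ => (mem_facs hD P).symm)]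
  unfold cG
  rw [Finset.sum_sub_distrib]
  push_cast
  congr 1
  refine Finset.sum_congr rfl fun P _ => ?_
  exact (sum_primes (hG P)
    (fun Q => (ℓ : ℤ) ^ padicValNat ℓ (P.1.natDegree * Q.natDegree))).symm

/-- the contribution of an inert prime -/
theorem cG_inert {ℓ : ℕ} (hℓ : ℓ.Prime) {G : ∀ P : MI k, (RF P)[X]} {P : MI k}
    (hP : Irreducible (G P)) (hm : (G P).Monic) (hn : ¬ ℓ ∣ (G P).natDegree) :
    cG ℓ G P = 0 := by
  have h0 : 0 < (G P).natDegree := Nat.pos_of_ne_zero fun h => hn (by rw [h]; exact dvd_zero ℓ)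
  have h1 : primes (G P) = {G P} := by
    have := primes_pow hm hP one_ne_zero
    rwa [pow_one] at this
  unfold cG
  rw [h1, Finset.sum_singleton, padicValNat_mul_inert hℓ (MI.deg_pos P) h0 hn, sub_self]
where
  padicValNat_mul_inert {ℓ : ℕ} (hℓ : ℓ.Prime) {m n : ℕ} (hm : 0 < m) (hn : 0 < n)
      (h : ¬ ℓ ∣ n) : padicValNat ℓ (m * n) = padicValNat ℓ m := by
    have : Fact ℓ.Prime := ⟨hℓ⟩
    rw [padicValNat.mul hm.ne' hn.ne', padicValNat.eq_zero_of_not_dvd h, add_zero]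

/-- the points over `P` count at most `n` times -/
theorem cG_le {ℓ : ℕ} (hℓ : ℓ.Prime) {G : ∀ P : MI k, (RF P)[X]} {P : MI k}
    (h0 : G P ≠ 0) : cG ℓ G P ≤ ((G P).natDegree - 1) * (ℓ : ℤ) ^ padicValNat ℓ P.1.natDegree := by
  have := finRF P
  have h1 := Pool.Agent.TH943.PT.sum_facs_le h0
  have h2 : ∑ Q ∈ primes (G P), (ℓ : ℤ) ^ padicValNat ℓ (P.1.natDegree * Q.natDegree) ≤
      (ℓ : ℤ) ^ padicValNat ℓ P.1.natDegree * (G P).natDegree := by
    rw [← sum_primes h0 (fun Q => (ℓ : ℤ) ^ padicValNat ℓ (P.1.natDegree * Q.natDegree))]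
    have h3 : ∀ Q ∈ facs (G P), (ℓ : ℤ) ^ padicValNat ℓ (P.1.natDegree * Q.1.natDegree) ≤
        (ℓ : ℤ) ^ padicValNat ℓ P.1.natDegree * Q.1.natDegree := by
      intro Q _
      have h4 := lp_mul hℓ (MI.deg_pos P) (MI.deg_pos Q)
      have h5 := lp_le hℓ (MI.deg_pos Q)
      have h6 : ℓ ^ padicValNat ℓ (P.1.natDegree * Q.1.natDegree) ≤
          ℓ ^ padicValNat ℓ P.1.natDegree * Q.1.natDegree := by
        rw [h4]
        exact Nat.mul_le_mul_left _ h5
      exact_mod_cast h6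
    refine (Finset.sum_le_sum h3).trans ?_
    rw [← Finset.mul_sum]
    refine mul_le_mul_of_nonneg_left ?_ (by positivity)
    exact_mod_cast h1
  unfold cG
  linarith

end Pool.Agent.TH639.SG
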